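import Pool.Agent.Q173.GM.Main

/-! # The geometric mean of the gaps -/

set_option autoImplicit false

open Filter Topology Set

namespace Pool.Agent.Q173.GM

open SG (ord NZ)
open Pool.Agent.Y747
open Pool.Agent.TH873.EW (ct mom)

lemma finite_part {n0 : ℕ} {F G : ℕ → ℝ} (h : ∀ n, n0 ≤ n → F n ≤ G n) :
    ∃ K : ℝ, 0 ≤ K ∧ ∀ N : ℕ, ∑ n ∈ Finset.Icc 1 N, F n ≤ ∑ n ∈ Finset.Icc 1 N, G n + K := by
  refine ⟨∑ n ∈ Finset.range n0, |F n - G n|, Finset.sum_nonneg fun _ _ => abs_nonneg _,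
    fun N => ?_⟩
  have h2 : ∀ n ∈ Finset.Icc 1 N, F n - G n ≤
      if n ∈ Finset.range n0 then |F n - G n| else 0 := by
    intro n _
    split_ifs with h1
    · exact le_abs_self _
    · rw [Finset.mem_range, not_lt] at h1
      have := h n h1
      linarith
  have h3 := Finset.sum_le_sum h2
  rw [← Finset.sum_filter, Finset.sum_sub_distrib] at h3
  have h4 : ∑ n ∈ (Finset.Icc 1 N).filter (fun n => n ∈ Finset.range n0), |F n - G n| ≤
      ∑ n ∈ Finset.range n0, |F n - G n| := by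
    apply Finset.sum_le_sum_of_subset_of_nonneg
    · intro n hn
      exact (Finset.mem_filter.1 hn).2
    · intro n _ _
      exact abs_nonneg _
  linarith

/-- the geometric mean, for the unfolding of the problem -/
theorem geoY (hRH : RiemannHypothesis) : ∀ᶠ N : ℕ in atTop,
    ∏ n ∈ Finset.Icc 1 N, |Y747.dl n| ≤ (97 / 100 : ℝ) ^ N := by
  obtain ⟨n0, hn0⟩ := Y747.dl_nonneg
  set R : ℕ → ℝ := fun n => 2 * ct (gk 0 (9 / 20) 0) (Y747.dl n) +
    121 / 100 * (Y747.dl n - 1) - 443 / 2000 with hR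
  obtain ⟨K, hK0, hK⟩ := finite_part (n0 := n0)
    (F := fun n => if Y747.dl n = 0 then R n else Real.log |Y747.dl n|)
    (G := fun n => R n) (fun n hn => by
      have a1 := hn0 n hn
      split_ifs with h
      · exact le_rfl
      · have hd : 0 < Y747.dl n := lt_of_le_of_ne a1 (Ne.symm h)
        rw [abs_of_pos hd]
        have h3 := log_cert hd
        simp only [hR]
        linarith)
  have h5 : Real.log (97 / 100 : ℝ) ≥ -(3047 / 100000) := by
    rw [ge_iff_le, Real.le_log_iff_exp_le (by norm_num)]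
    have h6 : Real.exp (-(3047 / 100000)) ≤ 1 / (1 + 3047 / 100000 + (3047 / 100000) ^ 2 / 2) := by
      rw [Real.exp_neg, ← one_div]
      apply one_div_le_one_div_of_le (by norm_num)
      have := Real.quadratic_le_exp_of_nonneg (show (0 : ℝ) ≤ 3047 / 100000 by norm_num)
      exact this
    refine h6.trans ?_
    norm_num
  filter_upwards [logs hRH,
    tendsto_natCast_atTop_atTop.eventually_ge_atTop (K / (1 / 10000))] with N h1 h2
  rw [div_le_iff₀ (by norm_num)] at h2
  have hN0 : (0 : ℝ) ≤ N := Nat.cast_nonneg N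
  by_cases hz : ∃ n ∈ Finset.Icc 1 N, Y747.dl n = 0
  · obtain ⟨n, hn, h0⟩ := hz
    rw [Finset.prod_eq_zero hn (by rw [h0, abs_zero])]
    positivity
  · push Not at hz
    have h3 := hK N
    have e1 : ∑ n ∈ Finset.Icc 1 N, (if Y747.dl n = 0 then R n else Real.log |Y747.dl n|) =
        ∑ n ∈ Finset.Icc 1 N, Real.log |Y747.dl n| :=
      Finset.sum_congr rfl fun n hn => if_neg (hz n hn)
    rw [e1] at h3
    have h4 : ∑ n ∈ Finset.Icc 1 N, Real.log |Y747.dl n| ≤ N * Real.log (97 / 100) := by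
      have h7 : (N : ℝ) * (-(3047 / 100000)) ≤ N * Real.log (97 / 100) :=
        mul_le_mul_of_nonneg_left h5 hN0
      have h8 : ∑ n ∈ Finset.Icc 1 N, R n ≤ -(306 / 10000 : ℝ) * N := h1
      linarith
    have hpos : ∀ n ∈ Finset.Icc 1 N, 0 < |Y747.dl n| := fun n hn => abs_pos.2 (hz n hn)
    rw [← Real.log_prod (fun n hn => (hpos n hn).ne'), ← Real.log_pow] at h4
    exact (Real.log_le_log_iff (Finset.prod_pos hpos) (by positivity)).1 h4

end Pool.Agent.Q173.GM
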