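import Pool.Agent.Q173.GM.Mean
import Pool.Agent.Y747.Gp
import Pool.Agent.Y747.Avg
import Pool.Agent.Q173.GM.S2
import Pool.Agent.Q173.GM.S3
import Pool.Agent.Q173.GM.S4
import Pool.Agent.Q173.GM.S6
import Pool.Agent.Q173.GM.LG

/-! # Moments of the gaps: from the certificates to averages -/

set_option autoImplicit false

open Filter Topology Set

namespace Pool.Agent.Q173.GM

open SG (ord NZ)
open Pool.Agent.Y747
open Pool.Agent.TH873.EW (ct mom)

lemma dl_eq (n : ℕ) : MN.dl n = Y747.dl n := by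
  unfold MN.dl Y747.dl
  ring

lemma meanY (ε : ℝ) (hε : 0 < ε) :
    ∀ᶠ N : ℕ in atTop, |∑ n ∈ Finset.Icc 1 N, (Y747.dl n - 1)| ≤ ε * N := by
  have h := MN.mean ε hε
  simpa only [dl_eq] using h

/-- lower bounds for averages of functions of the gaps -/
theorem comb (hRH : RiemannHypothesis) {c lam mu κ : ℝ} (hc : 0 ≤ c) (hmu : 0 ≤ mu)
    {φ : ℝ → ℝ} (hφ : ∀ x, 0 ≤ x →
      κ - φ x + mu * max 0 (x - 1) ≤ 0 + 2 * ct (gk 0 c 0) x + lam * (x - 1))
    (ε : ℝ) (hε : 0 < ε) :
    ∀ᶠ N : ℕ in atTop, (κ - Vf 0 c 0 + 10054 / 100000 * mu - ε) * N ≤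
      ∑ n ∈ Finset.Icc 1 N, φ (Y747.dl n) := by
  obtain ⟨n0, hn0⟩ := Y747.dl_nonneg
  have hN : ∀ p : ℝ, 0 ≤ p → 0 ≤ Np 0 c 0 p := by
    intro p hp
    unfold Np
    have := mul_nonneg hc hp
    linarith
  have h1 := avg hRH (cd_gk 0 c 0) (gk_one 0 c 0) (ct_gk_nonneg hN) (lam := 0) le_rfl
    (φ := fun x => 2 * ct (gk 0 c 0) x) (fun x hx => by
      rw [ct_gk_zero]; simp) (ε / 4) (by positivity)
  rw [mom_gk] at h1
  have h2 := meanY (ε / (4 * (|lam| + 1))) (by positivity)
  have h3 := plus_ge hRH (ε / (4 * (mu + 1))) (by positivity)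
  set D : ℕ → ℝ := fun n => κ - φ (dl n) + mu * max 0 (dl n - 1) -
    (2 * ct (gk 0 c 0) (dl n) + lam * (dl n - 1)) with hD
  set K : ℝ := ∑ n ∈ Finset.range n0, |D n| with hK
  have hKD : ∀ N : ℕ, ∑ n ∈ Finset.Icc 1 N, D n ≤ K := by
    intro N
    have h2 : ∀ n ∈ Finset.Icc 1 N, D n ≤ if n ∈ Finset.range n0 then |D n| else 0 := by
      intro n _
      split_ifs with h
      · exact le_abs_self _
      · rw [Finset.mem_range, not_lt] at h
        simp only [hD]
        have := hφ (dl n) (hn0 n h)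
        linarith
    refine (Finset.sum_le_sum h2).trans ?_
    rw [← Finset.sum_filter]
    apply Finset.sum_le_sum_of_subset_of_nonneg
    · intro n hn
      exact (Finset.mem_filter.1 hn).2
    · intro n _ _
      exact abs_nonneg _
  have ev : ∀ᶠ N : ℕ in atTop, K / (ε / 4) ≤ (N : ℝ) :=
    tendsto_natCast_atTop_atTop.eventually_ge_atTop _
  filter_upwards [h1, h2, h3, ev] with N h1 h2 h3 h4
  have h5 := hKD N
  rw [div_le_iff₀ (by positivity)] at h4
  have hN0 : (0 : ℝ) ≤ N := Nat.cast_nonneg N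
  have e1 : ∑ n ∈ Finset.Icc 1 N, φ (dl n) = κ * N + mu * ∑ n ∈ Finset.Icc 1 N, max 0 (dl n - 1) -
      ∑ n ∈ Finset.Icc 1 N, 2 * ct (gk 0 c 0) (dl n) -
      lam * ∑ n ∈ Finset.Icc 1 N, (dl n - 1) - ∑ n ∈ Finset.Icc 1 N, D n := by
    have e2 : κ * (N : ℝ) = ∑ n ∈ Finset.Icc 1 N, κ := by simp [mul_comm]
    rw [e2, Finset.mul_sum, Finset.mul_sum, ← Finset.sum_add_distrib, ← Finset.sum_sub_distrib,
      ← Finset.sum_sub_distrib, ← Finset.sum_sub_distrib]
    apply Finset.sum_congr rfl
    intro n _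
    simp only [hD]
    ring
  rw [e1]
  have h6 : lam * ∑ n ∈ Finset.Icc 1 N, (dl n - 1) ≤ ε / 4 * N := by
    calc lam * ∑ n ∈ Finset.Icc 1 N, (dl n - 1) ≤ |lam * ∑ n ∈ Finset.Icc 1 N, (dl n - 1)| :=
          le_abs_self _
      _ = |lam| * |∑ n ∈ Finset.Icc 1 N, (dl n - 1)| := abs_mul _ _
      _ ≤ |lam| * (ε / (4 * (|lam| + 1)) * N) := by gcongr
      _ = (|lam| / (|lam| + 1)) * (ε / 4 * N) := by field_simp
      _ ≤ 1 * (ε / 4 * N) := by
        apply mul_le_mul_of_nonneg_right _ (by positivity)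
        rw [div_le_one (by positivity)]
        linarith
      _ = _ := one_mul _
  have h7 : (10054 / 100000 * mu - ε / 4) * N ≤
      mu * ∑ n ∈ Finset.Icc 1 N, max 0 (dl n - 1) := by
    have h8 := mul_le_mul_of_nonneg_left h3 hmu
    have h9 : mu * (ε / (4 * (mu + 1)) * N) ≤ ε / 4 * N := by
      calc mu * (ε / (4 * (mu + 1)) * N) = (mu / (mu + 1)) * (ε / 4 * N) := by field_simp
        _ ≤ 1 * (ε / 4 * N) := by
          apply mul_le_mul_of_nonneg_right _ (by positivity)
          rw [div_le_one (by positivity)]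
          linarith
        _ = _ := one_mul _
    have e : mu * ((10054 / 100000 - ε / (4 * (mu + 1))) * N) =
        10054 / 100000 * mu * N - mu * (ε / (4 * (mu + 1)) * N) := by ring
    rw [e] at h8
    have e' : (10054 / 100000 * mu - ε / 4) * (N : ℝ) = 10054 / 100000 * mu * N - ε / 4 * N := by
      ring
    rw [e']
    linarith
  have e3 : (κ - Vf 0 c 0 + 10054 / 100000 * mu - ε) * (N : ℝ) = κ * N - Vf 0 c 0 * N +
    (10054 / 100000 * mu - ε / 4) * N - ε / 4 * N - ε / 4 * N - ε / 4 * N := by ring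
  have e4 : (Vf 0 c 0 + ε / 4) * (N : ℝ) = Vf 0 c 0 * N + ε / 4 * N := by ring
  rw [e3]
  rw [e4] at h1
  linarith

lemma Vf_eq (c : ℝ) : Vf 0 c 0 = c * (1 / 2 - 3 * (1 / (4 * Real.pi ^ 2))) := by
  unfold Vf
  ring

lemma Vf_le {c : ℝ} (hc : 0 ≤ c) : Vf 0 c 0 ≤ c * (424011 / 1000000) := by
  rw [Vf_eq]
  apply mul_le_mul_of_nonneg_left _ hc
  have h1 := Real.pi_gt_d6
  have h2 := Real.pi_lt_d6
  have h3 : (25330 / 1000000 : ℝ) < 1 / (4 * Real.pi ^ 2) := by
    rw [lt_div_iff₀ (by positivity)]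
    nlinarith
  linarith

/-- moments -/
theorem mom2 (hRH : RiemannHypothesis) : ∀ᶠ N : ℕ in atTop,
    (10521 / 10000 : ℝ) * N ≤ ∑ n ∈ Finset.Icc 1 N, Y747.dl n ^ 2 := by
  have h := comb hRH (c := 73 / 125) (lam := -16533 / 10000) (mu := 351 / 2000)
    (κ := 12821 / 10000) (φ := fun x => x ^ 2) (by norm_num) (by norm_num) (fun x hx => by
      rcases le_total x (33 / 20) with h | h
      · have := ct_S2 x hx h
        norm_num at this ⊢
        linarith
      · have h1 := ct_gk_nonneg np_S2 x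
        norm_num at h1 ⊢
        rw [max_eq_right (by linarith : (0 : ℝ) ≤ x - 1)]
        nlinarith) (1 / 100000) (by norm_num)
  filter_upwards [h] with N hN
  refine le_trans ?_ hN
  apply mul_le_mul_of_nonneg_right _ (Nat.cast_nonneg N)
  have := Vf_le (c := 73 / 125) (by norm_num)
  linarith

theorem mom3 (hRH : RiemannHypothesis) : ∀ᶠ N : ℕ in atTop,
    (11441 / 10000 : ℝ) * N ≤ ∑ n ∈ Finset.Icc 1 N, Y747.dl n ^ 3 := by
  have h := comb hRH (c := 607 / 500) (lam := -20152 / 10000) (mu := 9353 / 10000)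
    (κ := 15649 / 10000) (φ := fun x => x ^ 3) (by norm_num) (by norm_num) (fun x hx => by
      rcases le_total x (33 / 20) with h | h
      · have := ct_S3 x hx h
        norm_num at this ⊢
        linarith
      · have h1 := ct_gk_nonneg np_S3 x
        norm_num at h1 ⊢
        rw [max_eq_right (by linarith : (0 : ℝ) ≤ x - 1)]
        have h2 : 3 * (33 / 20) ^ 2 * x - 2 * (33 / 20) ^ 3 ≤ x ^ 3 := by
          have : 0 ≤ (x - 33 / 20) ^ 2 * (x + 2 * (33 / 20)) := by positivity
          nlinarith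
        linarith) (1 / 100000) (by norm_num)
  filter_upwards [h] with N hN
  refine le_trans ?_ hN
  apply mul_le_mul_of_nonneg_right _ (Nat.cast_nonneg N)
  have := Vf_le (c := 607 / 500) (by norm_num)
  linarith

theorem mom4 (hRH : RiemannHypothesis) : ∀ᶠ N : ℕ in atTop,
    (12681 / 10000 : ℝ) * N ≤ ∑ n ∈ Finset.Icc 1 N, Y747.dl n ^ 4 := by
  have h := comb hRH (c := 3293 / 2000) (lam := -21251 / 10000) (mu := 6229 / 2500)
    (κ := 8579 / 5000) (φ := fun x => x ^ 4) (by norm_num) (by norm_num) (fun x hx => by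
      rcases le_total x (33 / 20) with h | h
      · have := ct_S4 x hx h
        norm_num at this ⊢
        linarith
      · have h1 := ct_gk_nonneg np_S4 x
        norm_num at h1 ⊢
        rw [max_eq_right (by linarith : (0 : ℝ) ≤ x - 1)]
        have h2 : 4 * (33 / 20) ^ 3 * x - 3 * (33 / 20) ^ 4 ≤ x ^ 4 := by
          have : 0 ≤ (x - 33 / 20) ^ 2 * (x ^ 2 + 2 * (33 / 20) * x + 3 * (33 / 20) ^ 2) := by
            positivity
          nlinarith
        linarith) (1 / 100000) (by norm_num)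
  filter_upwards [h] with N hN
  refine le_trans ?_ hN
  apply mul_le_mul_of_nonneg_right _ (Nat.cast_nonneg N)
  have := Vf_le (c := 3293 / 2000) (by norm_num)
  linarith

theorem mom6 (hRH : RiemannHypothesis) : ∀ᶠ N : ℕ in atTop,
    (16004 / 10000 : ℝ) * N ≤ ∑ n ∈ Finset.Icc 1 N, Y747.dl n ^ 6 := by
  have h := comb hRH (c := 1923 / 1250) (lam := -16559 / 10000) (mu := 85389 / 10000)
    (κ := 13943 / 10000) (φ := fun x => x ^ 6) (by norm_num) (by norm_num) (fun x hx => by
      rcases le_total x (33 / 20) with h | h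
      · have := ct_S6 x hx h
        norm_num at this ⊢
        linarith
      · have h1 := ct_gk_nonneg np_S6 x
        norm_num at h1 ⊢
        rw [max_eq_right (by linarith : (0 : ℝ) ≤ x - 1)]
        have h2 : (33 / 20) ^ 5 * x ≤ x ^ 6 := by
          have : x ^ 6 = x ^ 5 * x := by ring
          rw [this]
          gcongr
        nlinarith) (1 / 100000) (by norm_num)
  filter_upwards [h] with N hN
  refine le_trans ?_ hN
  apply mul_le_mul_of_nonneg_right _ (Nat.cast_nonneg N)
  have := Vf_le (c := 1923 / 1250) (by norm_num)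
  linarith

/-- Taylor polynomial of the logarithm of odd order -/
lemma log_le_T5 {x : ℝ} (hx : 0 < x) : Real.log x ≤
    (x - 1) - (x - 1) ^ 2 / 2 + (x - 1) ^ 3 / 3 - (x - 1) ^ 4 / 4 + (x - 1) ^ 5 / 5 := by
  obtain ⟨G, hG⟩ : ∃ G : ℝ → ℝ, G = fun x => (x - 1) - (x - 1) ^ 2 / 2 + (x - 1) ^ 3 / 3 -
    (x - 1) ^ 4 / 4 + (x - 1) ^ 5 / 5 - Real.log x := ⟨_, rfl⟩
  have hd : ∀ y : ℝ, 0 < y → HasDerivAt G ((y - 1) ^ 5 / y) y := by
    intro y hy
    have h0 : HasDerivAt (fun x : ℝ => x - 1) 1 y := (hasDerivAt_id y).sub_const 1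
    have h := ((((h0.sub ((h0.pow 2).div_const 2)).add ((h0.pow 3).div_const 3)).sub
      ((h0.pow 4).div_const 4)).add ((h0.pow 5).div_const 5)).sub (Real.hasDerivAt_log hy.ne')
    rw [hG]
    refine h.congr_deriv ?_
    field_simp
    ring
  have h1 : G 1 = 0 := by rw [hG]; simp
  have key : 0 ≤ G x := by
    rcases le_total x 1 with h | h
    · have hanti : AntitoneOn G (Icc x 1) := by
        apply antitoneOn_of_deriv_nonpos (convex_Icc x 1)
        · intro y hy
          exact (hd y (by linarith [hy.1])).continuousAt.continuousWithinAt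
        · intro y hy
          rw [interior_Icc] at hy
          exact (hd y (by linarith [hy.1])).differentiableAt.differentiableWithinAt
        · intro y hy
          rw [interior_Icc] at hy
          have hy0 : 0 < y := by linarith [hy.1]
          rw [(hd y hy0).deriv]
          apply div_nonpos_of_nonpos_of_nonneg _ hy0.le
          have : y - 1 ≤ 0 := by linarith [hy.2]
          exact Odd.pow_nonpos (by decide) this
      have := hanti (left_mem_Icc.2 h) (right_mem_Icc.2 h) h
      linarith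
    · have hmono : MonotoneOn G (Icc 1 x) := by
        apply monotoneOn_of_deriv_nonneg (convex_Icc 1 x)
        · intro y hy
          exact (hd y (by linarith [hy.1])).continuousAt.continuousWithinAt
        · intro y hy
          rw [interior_Icc] at hy
          exact (hd y (by linarith [hy.1])).differentiableAt.differentiableWithinAt
        · intro y hy
          rw [interior_Icc] at hy
          have hy0 : 0 < y := by linarith [hy.1]
          rw [(hd y hy0).deriv]
          have : 0 ≤ y - 1 := by linarith [hy.1]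
          positivity
      have := hmono (left_mem_Icc.2 h) (right_mem_Icc.2 h) h
      linarith
  rw [hG] at key
  simp only at key
  linarith

/-- the logarithm against the kernel -/
lemma log_cert {x : ℝ} (hx : 0 < x) :
    Real.log x ≤ 2 * ct (gk 0 (9 / 20) 0) x + 121 / 100 * (x - 1) - 443 / 2000 := by
  rcases le_total x (33 / 20) with h | h
  · have h1 := ct_LG x hx.le h
    have h2 := log_le_T5 hx
    norm_num at h1 h2 ⊢
    linarith
  · have h1 := ct_gk_nonneg np_LG x
    have h2 := log_le_T5 (show (0 : ℝ) < 33 / 20 by norm_num)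
    have h3 : Real.log x = Real.log (33 / 20) + Real.log (x / (33 / 20)) := by
      rw [← Real.log_mul (by norm_num) (by positivity)]
      congr 1
      field_simp
    have h4 : Real.log (x / (33 / 20)) ≤ x / (33 / 20) - 1 :=
      Real.log_le_sub_one_of_pos (by positivity)
    rw [h3]
    norm_num at h1 h2 h4 ⊢
    linarith

/-- the logarithms -/
theorem logs (hRH : RiemannHypothesis) : ∀ᶠ N : ℕ in atTop,
    ∑ n ∈ Finset.Icc 1 N, (2 * ct (gk 0 (9 / 20) 0) (dl n) + 121 / 100 * (dl n - 1) - 443 / 2000) ≤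
      -(306 / 10000 : ℝ) * N := by
  have h := comb hRH (c := 9 / 20) (lam := 121 / 100) (mu := 0)
    (κ := 443 / 2000) (φ := fun x => -(2 * ct (gk 0 (9 / 20) 0) x + 121 / 100 * (x - 1) - 443 / 2000))
    (by norm_num) le_rfl (fun x hx => by
      linarith) (1 / 100000) (by norm_num)
  filter_upwards [h] with N hN
  rw [Finset.sum_neg_distrib] at hN
  have h1 := Vf_le (c := 9 / 20) (by norm_num)
  have h2 : (306 / 10000 : ℝ) * N ≤
      (443 / 2000 - Vf 0 (9 / 20) 0 + 10054 / 100000 * 0 - 1 / 100000) * N := by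
    apply mul_le_mul_of_nonneg_right _ (Nat.cast_nonneg N)
    linarith
  linarith

end Pool.Agent.Q173.GM
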