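import Pool.Agent.Q173.GM.Geo

/-! # Moments of the gaps: the other unfolding -/

set_option autoImplicit false

open Filter Topology Set

namespace Pool.Agent.Q173.GM

open SG (ord NZ)
open Pool.Agent.Y747
open Pool.Agent.TH873.EW (ct mom)

/-- the gaps in the other normalisation -/
noncomputable def dt (n : ℕ) : ℝ :=
  ord (n + 1) * Real.log (ord (n + 1)) / (2 * Real.pi) - ord n * Real.log (ord n) / (2 * Real.pi)

lemma dt_ge {n : ℕ} (hn : 1 ≤ n) : Y747.dl n ≤ dt n := by
  have hpi := Real.pi_gt_three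
  have hp := SG.ord_pos hn
  have hm := SG.ord_mono hn (Nat.le_succ n)
  have e : Y747.dl n = (ord (n + 1) - ord n) * Real.log (ord n / (2 * Real.pi)) / (2 * Real.pi) := by
    unfold Y747.dl
    ring
  rw [e]
  unfold dt
  rw [← sub_div]
  apply div_le_div_of_nonneg_right _ (by positivity)
  rw [Real.log_div hp.ne' (by positivity)]
  have h1 : Real.log (ord n) ≤ Real.log (ord (n + 1)) := Real.log_le_log hp hm
  have h2 : 0 ≤ Real.log (2 * Real.pi) := Real.log_nonneg (by linarith)
  have h3 : 0 < ord (n + 1) := hp.trans_le hm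
  have h4 : ord n ≤ ord (n + 1) := hm
  nlinarith [mul_nonneg h3.le (sub_nonneg.2 h1), mul_nonneg (sub_nonneg.2 h4) h2]

lemma dt_le (hRH : RiemannHypothesis) (η : ℝ) (hη : 0 < η) : ∃ n0 : ℕ, ∀ n : ℕ, n0 ≤ n →
    dt n ≤ (1 + η) * Y747.dl n := by
  have hpi := Real.pi_gt_three
  obtain ⟨T0, hT0, hgap⟩ := NZ_gap hRH 1 one_pos
  have hl : ∀ᶠ n : ℕ in atTop, (Real.log 2 + 1 + (1 + η) * Real.log (2 * Real.pi)) / η ≤
      Real.log (ord n) :=
    (Real.tendsto_log_atTop.comp SG.ord_tendsto).eventually_ge_atTop _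
  have hev := ((hl.and (SG.ord_tendsto.eventually_ge_atTop T0)).and (eventually_ge_atTop 1))
  obtain ⟨n0, h0⟩ := hev.exists_forall_of_atTop
  refine ⟨n0, fun n hn => ?_⟩
  obtain ⟨⟨h1, h2⟩, h3⟩ := h0 n hn
  have hp : 0 < ord n := SG.ord_pos h3
  have hm : ord n ≤ ord (n + 1) := SG.ord_mono h3 (Nat.le_succ n)
  have h4 : ord (n + 1) ≤ 2 * ord n := by
    have h5 := hgap (ord n) h2
    have h6 : n ≤ NZ (ord n) := SG.le_NZ_ord h3
    have h7 : n + 1 ≤ NZ ((1 + 1) * ord n) := by omega
    have := (SG.ord_le_iff (by omega : 1 ≤ n + 1) ((1 + 1) * ord n)).2 h7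
    linarith
  rw [div_le_iff₀ hη] at h1
  have hq : 0 < ord (n + 1) := hp.trans_le hm
  have h5 : Real.log (ord (n + 1)) ≤ Real.log 2 + Real.log (ord n) := by
    rw [← Real.log_mul (by norm_num) hp.ne']
    exact Real.log_le_log hq h4
  have h6 : ord n * (Real.log (ord (n + 1)) - Real.log (ord n)) ≤ ord (n + 1) - ord n := by
    have h7 : Real.log (ord (n + 1)) - Real.log (ord n) = Real.log (ord (n + 1) / ord n) :=
      (Real.log_div hq.ne' hp.ne').symm
    have h8 : Real.log (ord (n + 1) / ord n) ≤ ord (n + 1) / ord n - 1 :=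
      Real.log_le_sub_one_of_pos (div_pos hq hp)
    rw [h7]
    calc ord n * Real.log (ord (n + 1) / ord n) ≤ ord n * (ord (n + 1) / ord n - 1) := by gcongr
      _ = _ := by field_simp
  have e : (1 + η) * Y747.dl n =
      (1 + η) * (ord (n + 1) - ord n) * Real.log (ord n / (2 * Real.pi)) / (2 * Real.pi) := by
    unfold Y747.dl
    ring
  rw [e]
  unfold dt
  rw [← sub_div]
  apply div_le_div_of_nonneg_right _ (by positivity)
  rw [Real.log_div hp.ne' (by positivity)]
  have h9 : ord (n + 1) * Real.log (ord (n + 1)) - ord n * Real.log (ord n) ≤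
      (ord (n + 1) - ord n) * (Real.log (ord (n + 1)) + 1) := by
    have : ord (n + 1) * Real.log (ord (n + 1)) - ord n * Real.log (ord n) =
      (ord (n + 1) - ord n) * Real.log (ord (n + 1)) +
        ord n * (Real.log (ord (n + 1)) - Real.log (ord n)) := by ring
    rw [this]
    linarith
  refine h9.trans ?_
  have h10 : (1 + η) * (ord (n + 1) - ord n) * (Real.log (ord n) - Real.log (2 * Real.pi)) =
      (ord (n + 1) - ord n) * ((1 + η) * (Real.log (ord n) - Real.log (2 * Real.pi))) := by ring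
  rw [h10]
  apply mul_le_mul_of_nonneg_left _ (by linarith)
  linarith

/-- transfer of power moments -/
lemma pow_transfer {k : ℕ} {a b : ℝ} (hab : b < a)
    (h : ∀ᶠ N : ℕ in atTop, a * N ≤ ∑ n ∈ Finset.Icc 1 N, Y747.dl n ^ k) :
    ∀ᶠ N : ℕ in atTop, b * N ≤ ∑ n ∈ Finset.Icc 1 N, dt n ^ k := by
  obtain ⟨n0, hn0⟩ := Y747.dl_nonneg
  obtain ⟨K, hK0, hK⟩ := finite_part (n0 := max n0 1) (F := fun n => Y747.dl n ^ k)
    (G := fun n => dt n ^ k) (fun n hn =>
      pow_le_pow_left₀ (hn0 n ((le_max_left _ _).trans hn))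
        (dt_ge ((le_max_right _ _).trans hn)) k)
  filter_upwards [h, tendsto_natCast_atTop_atTop.eventually_ge_atTop (K / (a - b))] with N h1 h2
  have h3 := hK N
  rw [div_le_iff₀ (by linarith)] at h2
  linarith

/-- the geometric mean -/
theorem geo (hRH : RiemannHypothesis) : ∀ᶠ N : ℕ in atTop,
    ∏ n ∈ Finset.Icc 1 N, |dt n| ≤ (97 / 100 : ℝ) ^ N := by
  obtain ⟨n0, hn0⟩ := Y747.dl_nonneg
  obtain ⟨n1, hn1⟩ := dt_le hRH (1 / 100000) (by norm_num)
  set R : ℕ → ℝ := fun n => 2 * ct (gk 0 (9 / 20) 0) (Y747.dl n) +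
    121 / 100 * (Y747.dl n - 1) - 443 / 2000 with hR
  obtain ⟨K, hK0, hK⟩ := finite_part (n0 := max (max n0 n1) 1)
    (F := fun n => if dt n = 0 then R n else Real.log |dt n|)
    (G := fun n => R n + 1 / 100000) (fun n hn => by
      have g1 : n0 ≤ n := ((le_max_left _ _).trans (le_max_left _ _)).trans hn
      have g2 : n1 ≤ n := ((le_max_right _ _).trans (le_max_left _ _)).trans hn
      have g3 : 1 ≤ n := (le_max_right _ _).trans hn
      have a1 := hn0 n g1
      have a2 := hn1 n g2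
      have a3 := dt_ge g3
      split_ifs with h
      · linarith
      · have hd : 0 < dt n := lt_of_le_of_ne (a1.trans a3) (Ne.symm h)
        have hl : 0 < Y747.dl n := by
          rcases a1.lt_or_eq with h' | h'
          · exact h'
          · rw [← h'] at a2
            linarith
        rw [abs_of_pos hd]
        have h1 : Real.log (dt n) ≤ Real.log ((1 + 1 / 100000) * Y747.dl n) :=
          Real.log_le_log hd a2
        rw [Real.log_mul (by norm_num) hl.ne'] at h1
        have h2 : Real.log (1 + 1 / 100000 : ℝ) ≤ 1 / 100000 := by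
          have := Real.log_le_sub_one_of_pos (show (0 : ℝ) < 1 + 1 / 100000 by norm_num)
          linarith
        have h3 := log_cert hl
        simp only [hR]
        linarith)
  have h5 : Real.log (97 / 100 : ℝ) ≥ -(3047 / 100000) := by
    rw [ge_iff_le, Real.le_log_iff_exp_le (by norm_num)]
    have h6 : Real.exp (-(3047 / 100000)) ≤ 1 / (1 + 3047 / 100000 + (3047 / 100000) ^ 2 / 2) := by
      rw [Real.exp_neg, ← one_div]
      apply one_div_le_one_div_of_le (by norm_num)
      have := Real.quadratic_le_exp_of_nonneg (show (0 : ℝ) ≤ 3047 / 100000 by norm_num)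
      exact this
    refine h6.trans ?_
    norm_num
  filter_upwards [logs hRH,
    tendsto_natCast_atTop_atTop.eventually_ge_atTop (K / (1 / 10000))] with N h1 h2
  rw [div_le_iff₀ (by norm_num)] at h2
  have hN0 : (0 : ℝ) ≤ N := Nat.cast_nonneg N
  by_cases hz : ∃ n ∈ Finset.Icc 1 N, dt n = 0
  · obtain ⟨n, hn, h0⟩ := hz
    rw [Finset.prod_eq_zero hn (by rw [h0, abs_zero])]
    positivity
  · push Not at hz
    have h3 := hK N
    have e1 : ∑ n ∈ Finset.Icc 1 N, (if dt n = 0 then R n else Real.log |dt n|) =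
        ∑ n ∈ Finset.Icc 1 N, Real.log |dt n| :=
      Finset.sum_congr rfl fun n hn => if_neg (hz n hn)
    have e2 : ∑ n ∈ Finset.Icc 1 N, (R n + 1 / 100000) =
        ∑ n ∈ Finset.Icc 1 N, R n + 1 / 100000 * N := by
      rw [Finset.sum_add_distrib, Finset.sum_const, Nat.card_Icc, Nat.add_sub_cancel,
        nsmul_eq_mul]
      ring
    rw [e1, e2] at h3
    have h4 : ∑ n ∈ Finset.Icc 1 N, Real.log |dt n| ≤ N * Real.log (97 / 100) := by
      have h7 : (N : ℝ) * (-(3047 / 100000)) ≤ N * Real.log (97 / 100) :=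
        mul_le_mul_of_nonneg_left h5 hN0
      have h8 : ∑ n ∈ Finset.Icc 1 N, R n ≤ -(306 / 10000 : ℝ) * N := h1
      linarith
    have hpos : ∀ n ∈ Finset.Icc 1 N, 0 < |dt n| := fun n hn => abs_pos.2 (hz n hn)
    rw [← Real.log_prod (fun n hn => (hpos n hn).ne'), ← Real.log_pow] at h4
    exact (Real.log_le_log_iff (Finset.prod_pos hpos) (by positivity)).1 h4

end Pool.Agent.Q173.GM
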